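import Pool.Agent.Lib.WnG.AllSix

/-!
# MP_d6cb56_nt: one number for all degrees, the six exponents of one number for every `n`
-/

set_option autoImplicit false

namespace Pool.Agent.Results.MP_d6cb56_nt.AllDegrees

/-- The value at `ξ` of the integer polynomial with coefficients `P_0, …, P_n`. -/
noncomputable def value {n : ℕ} (P : Fin (n + 1) → ℤ) (ξ : ℝ) : ℝ := ∑ i, (P i : ℝ) * ξ ^ (i : ℕ)

/-- The height of an integer polynomial: the maximum of the absolute values of its coefficients. -/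
noncomputable def height {n : ℕ} (P : Fin (n + 1) → ℤ) : ℝ := ⨆ i, |(P i : ℝ)|

/-- The exponent `w_n(ξ)`: the supremum in `[-∞, +∞]` of the reals `r` for which there are infinitely
many integer polynomials `P` of degree `≤ n` with `0 < |P(ξ)| ≤ H(P)^{-r}`. -/
noncomputable def wexp (n : ℕ) (ξ : ℝ) : EReal :=
  sSup {l : EReal | ∃ r : ℝ, l = r ∧
    {P : Fin (n + 1) → ℤ | 0 < |value P ξ| ∧ |value P ξ| ≤ (height P) ^ (-r)}.Infinite}

/-- The height of an integer polynomial in one variable: the maximum of the absolute values of its coefficients. -/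
noncomputable def heightP (P : Polynomial ℤ) : ℝ := ⨆ i : ℕ, |(P.coeff i : ℝ)|

/-- The exponent `w_n^*(ξ)`: the supremum in `[-∞, +∞]` of the reals `r` for which there are infinitely
many algebraic numbers `α` of degree `≤ n` with `0 < |ξ - α| ≤ H(α)^{-r-1}`.  Here `P` is the minimal polynomial
of `α` over `ℤ`. -/
noncomputable def wstar (n : ℕ) (ξ : ℝ) : EReal :=
  sSup {l : EReal | ∃ r : ℝ, l = r ∧
    {α : ℂ | ∃ P : Polynomial ℤ, Irreducible P ∧ P.natDegree ≤ n ∧ Polynomial.aeval α P = 0 ∧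
      0 < ‖(ξ : ℂ) - α‖ ∧ ‖(ξ : ℂ) - α‖ ≤ (heightP P) ^ (-r - 1)}.Infinite}

/-- The exponent `λ_n(ξ)`: the supremum in `[-∞, +∞]` of the reals `r` for which there are infinitely
many integer points `(x_0, …, x_n)` with `x_0 ≠ 0` and
`max_{1 ≤ j ≤ n} |x_0 ξ^j - x_j| ≤ |x_0|^{-r}`. -/
noncomputable def lambda (n : ℕ) (ξ : ℝ) : EReal :=
  sSup {l : EReal | ∃ r : ℝ, l = r ∧
    {x : Fin (n + 1) → ℤ | x 0 ≠ 0 ∧
      ∀ j : Fin n, |(x 0 : ℝ) * ξ ^ ((j : ℕ) + 1) - x j.succ| ≤ |(x 0 : ℝ)| ^ (-r)}.Infinite}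

/-- The exponent `ŵ_n(ξ)`: the supremum in `[-∞, +∞]` of the reals `r` such that for every
sufficiently large real `X` there are integers `x_0, …, x_n` with `max_j |x_j| ≤ X` and
`0 < |x_n ξ^n + … + x_1 ξ + x_0| ≤ X^{-r}`. -/
noncomputable def hatw (n : ℕ) (ξ : ℝ) : EReal :=
  sSup {l : EReal | ∃ r : ℝ, l = r ∧ ∃ X₀ : ℝ, ∀ X : ℝ, X₀ ≤ X →
    ∃ x : Fin (n + 1) → ℤ, (∀ j, |(x j : ℝ)| ≤ X) ∧
      0 < |∑ j : Fin (n + 1), (x j : ℝ) * ξ ^ (j : ℕ)| ∧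
      |∑ j : Fin (n + 1), (x j : ℝ) * ξ ^ (j : ℕ)| ≤ X ^ (-r)}

/-- The exponent `ŵ_n^*(ξ)`: the supremum in `[-∞, +∞]` of the reals `r` such that for every
sufficiently large real `X` there is a real algebraic number `α` of degree `≤ n` with `H(α) ≤ X` and
`0 < |ξ - α| ≤ H(α)^{-1} X^{-r}`.  Here `P` is the minimal polynomial of `α` over `ℤ`. -/
noncomputable def hatwstar (n : ℕ) (ξ : ℝ) : EReal :=
  sSup {l : EReal | ∃ r : ℝ, l = r ∧ ∃ X₀ : ℝ, ∀ X : ℝ, X₀ ≤ X →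
    ∃ P : Polynomial ℤ, Irreducible P ∧ P.natDegree ≤ n ∧ heightP P ≤ X ∧
      ∃ α : ℝ, Polynomial.aeval α P = 0 ∧ 0 < |ξ - α| ∧ |ξ - α| ≤ (heightP P)⁻¹ * X ^ (-r)}

/-- The exponent `λ̂_n(ξ)`: the supremum in `[-∞, +∞]` of the reals `r` such that for every
sufficiently large real `X` there are integers `x_0, …, x_n` with `0 < |x_0| ≤ X` and
`max_{1 ≤ j ≤ n} |x_0 ξ^j - x_j| ≤ X^{-r}`. -/
noncomputable def hatlambda (n : ℕ) (ξ : ℝ) : EReal :=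
  sSup {l : EReal | ∃ r : ℝ, l = r ∧ ∃ X₀ : ℝ, ∀ X : ℝ, X₀ ≤ X →
    ∃ x : Fin (n + 1) → ℤ, x 0 ≠ 0 ∧ |(x 0 : ℝ)| ≤ X ∧
      ∀ j : Fin n, |(x 0 : ℝ) * ξ ^ ((j : ℕ) + 1) - x j.succ| ≤ X ^ (-r)}

lemma wexp_eq (n : ℕ) (ξ : ℝ) : wexp n ξ = Pool.Agent.WnF.wx n ξ := rfl
lemma wstar_eq (n : ℕ) (ξ : ℝ) : wstar n ξ = Pool.Agent.WnG.wst n ξ := rfl
lemma hatw_eq (n : ℕ) (ξ : ℝ) : hatw n ξ = Pool.Agent.WnG.hwn n ξ := rfl
lemma hatlambda_eq (n : ℕ) (ξ : ℝ) : hatlambda n ξ = Pool.Agent.WnG.hlam n ξ := rfl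
lemma lambda_eq (n : ℕ) (ξ : ℝ) : lambda n ξ = Pool.Agent.LamSpec.lam n ξ := rfl
lemma hatwstar_eq (n : ℕ) (ξ : ℝ) : hatwstar n ξ = Pool.Agent.WnF.hws n ξ := rfl

/-- **One number for all degrees.** For every real `w ≥ 1` there is a real transcendental number `ξ` such that,
for every `n ≥ 1` and with `m = max(w, n)`,
`w_n(ξ) = w_n^*(ξ) = m`, `λ_n(ξ) = (m - n + 1)/n`, `ŵ_n(ξ) = n`, `ŵ_n^*(ξ) = m/(m - n + 1)` and
`λ̂_n(ξ) = 1/n`. -/
theorem result : ∀ w : ℝ, 1 ≤ w → ∃ ξ : ℝ, Transcendental ℚ ξ ∧ ∀ n : ℕ, 1 ≤ n →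
    wexp n ξ = ((max w n : ℝ) : EReal) ∧ wstar n ξ = ((max w n : ℝ) : EReal) ∧
    lambda n ξ = (((max w n - n + 1) / n : ℝ) : EReal) ∧
    hatw n ξ = ((n : ℝ) : EReal) ∧
    hatwstar n ξ = ((max w n / (max w n - n + 1) : ℝ) : EReal) ∧
    hatlambda n ξ = ((1 / n : ℝ) : EReal) := by
  intro w hw
  exact Pool.Agent.WnG.all_six w hw

end Pool.Agent.Results.MP_d6cb56_nt.AllDegrees
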