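import Pool.Agent.Lib.WnF.Concl
import Pool.Agent.Lib.WnF.LamV
import Pool.Agent.Lib.WnF.LamGe

/-!
# MP_d6cb56_nt: the spectrum of `λ_n` is `[1/n, +∞]` for every `n ≥ 1`
-/

set_option autoImplicit false

namespace Pool.Agent.Results.MP_d6cb56_nt.LambdaFull

/-- The integer points `(x_0, …, x_n)` with `x_0 ≠ 0` and
`max_{1 ≤ j ≤ n} |x_0 ξ^j - x_j| ≤ |x_0|^{-l}`. -/
def Points (n : ℕ) (ξ l : ℝ) : Set (Fin (n + 1) → ℤ) :=
  {x | x 0 ≠ 0 ∧ ∀ j : Fin n, |(x 0 : ℝ) * ξ ^ ((j : ℕ) + 1) - x j.succ| ≤ |(x 0 : ℝ)| ^ (-l)}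

/-- The exponent `λ_n(ξ)`: the supremum in `[-∞, +∞]` of the reals `l` for which there are infinitely
many integer points `(x_0, …, x_n)` with `x_0 ≠ 0` and
`max_{1 ≤ j ≤ n} |x_0 ξ^j - x_j| ≤ |x_0|^{-l}`. -/
noncomputable def lambda (n : ℕ) (ξ : ℝ) : EReal :=
  sSup {l : EReal | ∃ r : ℝ, l = r ∧ (Points n ξ r).Infinite}

/-- The spectrum of `λ_n`: the set of its values at the real transcendental numbers. -/
def spectrum (n : ℕ) : Set EReal := {l | ∃ ξ : ℝ, Transcendental ℚ ξ ∧ lambda n ξ = l}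

lemma lambda_eq (n : ℕ) (ξ : ℝ) : lambda n ξ = Pool.Agent.LamSpec.lam n ξ := rfl

/-- **The spectrum of `λ_n`.** For every `n ≥ 1` the spectrum of `λ_n` is `[1/n, +∞]`. -/
theorem result : ∀ n : ℕ, 1 ≤ n → spectrum n = Set.Ici (((1 / (n:ℝ) : ℝ)) : EReal) := by
  intro n hn
  have hnR : (1:ℝ) ≤ n := by exact_mod_cast hn
  have hn0 : (0:ℝ) < n := by linarith
  · apply Set.Subset.antisymm
    · rintro l ⟨ξ, hξ, rfl⟩
      rw [lambda_eq]
      exact Pool.Agent.WnF.lam_ge n hn ξ hξ.irrational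
    · intro l hl
      rw [Set.mem_Ici] at hl
      induction l using EReal.rec with
      | bot => exact absurd hl (not_le.2 (EReal.bot_lt_coe _))
      | coe l =>
        rw [EReal.coe_le_coe_iff] at hl
        have hw : (n:ℝ) ≤ n * l + n - 1 := by
          have : n * (1 / (n:ℝ)) ≤ n * l := mul_le_mul_of_nonneg_left hl hn0.le
          have e : n * (1 / (n:ℝ)) = 1 := by field_simp
          linarith
        obtain ⟨ξ, hξ, h1, h2⟩ := Pool.Agent.WnF.exists_xi n hn (n * l + n - 1) hw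
        refine ⟨ξ, hξ, ?_⟩
        rw [lambda_eq, Pool.Agent.WnF.lam_val n hn _ hw ξ h1 h2]
        congr 1
        field_simp
        ring
      | top =>
        have h := liouville_liouvilleNumber (m := 2) le_rfl
        refine ⟨liouvilleNumber ((2 : ℕ) : ℝ), ?_, ?_⟩
        · intro halg
          have h3 := (IsFractionRing.isAlgebraic_iff ℤ ℚ ℝ).2 halg
          exact h.transcendental h3
        · rw [lambda_eq]
          exact Pool.Agent.LamSpec.lam_liouville h hn

end Pool.Agent.Results.MP_d6cb56_nt.LambdaFull
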