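import Pool.Agent.Lib.D7.Main

/-!
# MP_d6cb56_nt: intervals in the spectra of `ŵ_2`, `ŵ_2^*` and `λ̂_2`
-/

set_option autoImplicit false

namespace Pool.Agent.Results.MP_d6cb56_nt.UniformIntervals

/-- There are integers `x_0, …, x_n` with `0 < |x_0| ≤ X` and
`max_{1 ≤ j ≤ n} |x_0 ξ^j - x_j| ≤ X^{-r}`. -/
def SimApproximable (n : ℕ) (ξ r X : ℝ) : Prop :=
  ∃ x : Fin (n + 1) → ℤ, x 0 ≠ 0 ∧ |(x 0 : ℝ)| ≤ X ∧
    ∀ j : Fin n, |(x 0 : ℝ) * ξ ^ ((j : ℕ) + 1) - x j.succ| ≤ X ^ (-r)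

/-- The exponent `λ̂_n(ξ)`: the supremum in `[-∞, +∞]` of the reals `r` such that for every
sufficiently large real `X` there are integers `x_0, …, x_n` with `0 < |x_0| ≤ X` and
`max_{1 ≤ j ≤ n} |x_0 ξ^j - x_j| ≤ X^{-r}`. -/
noncomputable def hatlambda (n : ℕ) (ξ : ℝ) : EReal :=
  sSup {l : EReal | ∃ r : ℝ, l = r ∧ ∃ X₀ : ℝ, ∀ X : ℝ, X₀ ≤ X → SimApproximable n ξ r X}

/-- There are integers `x_0, …, x_n` with `max_j |x_j| ≤ X` and
`0 < |x_n ξ^n + … + x_1 ξ + x_0| ≤ X^{-r}`. -/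
def PolApproximable (n : ℕ) (ξ r X : ℝ) : Prop :=
  ∃ x : Fin (n + 1) → ℤ, (∀ j, |(x j : ℝ)| ≤ X) ∧
    0 < |∑ j : Fin (n + 1), (x j : ℝ) * ξ ^ (j : ℕ)| ∧
    |∑ j : Fin (n + 1), (x j : ℝ) * ξ ^ (j : ℕ)| ≤ X ^ (-r)

/-- The exponent `ŵ_n(ξ)`: the supremum in `[-∞, +∞]` of the reals `r` such that for every
sufficiently large real `X` there are integers `x_0, …, x_n` with `max_j |x_j| ≤ X` and
`0 < |x_n ξ^n + … + x_1 ξ + x_0| ≤ X^{-r}`. -/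
noncomputable def hatw (n : ℕ) (ξ : ℝ) : EReal :=
  sSup {l : EReal | ∃ r : ℝ, l = r ∧ ∃ X₀ : ℝ, ∀ X : ℝ, X₀ ≤ X → PolApproximable n ξ r X}

/-- The height of an integer polynomial: the maximum of the absolute values of its coefficients. -/
noncomputable def height (P : Polynomial ℤ) : ℝ := ⨆ i : ℕ, |(P.coeff i : ℝ)|

/-- There is a real algebraic number `α` of degree `≤ n` with `H(α) ≤ X` and
`0 < |ξ - α| ≤ H(α)^{-1} X^{-v}`.  Here `P` is the minimal polynomial of `α` over `ℤ`. -/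
def Approximable (n : ℕ) (ξ v X : ℝ) : Prop :=
  ∃ P : Polynomial ℤ, Irreducible P ∧ P.natDegree ≤ n ∧ height P ≤ X ∧
    ∃ α : ℝ, Polynomial.aeval α P = 0 ∧ 0 < |ξ - α| ∧ |ξ - α| ≤ (height P)⁻¹ * X ^ (-v)

/-- The exponent `ŵ_n^*(ξ)`: the supremum in `[-∞, +∞]` of the reals `r` such that for every
sufficiently large real `X` there is a real algebraic number `α` of degree `≤ n` with `H(α) ≤ X` and
`0 < |ξ - α| ≤ H(α)^{-1} X^{-r}`. -/
noncomputable def hatwstar (n : ℕ) (ξ : ℝ) : EReal :=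
  sSup {l : EReal | ∃ r : ℝ, l = r ∧ ∃ X₀ : ℝ, ∀ X : ℝ, X₀ ≤ X → Approximable n ξ r X}

/-- The spectrum of an exponent: the set of its values at the real transcendental numbers. -/
def spectrum (e : ℝ → EReal) : Set EReal := {l | ∃ ξ : ℝ, Transcendental ℚ ξ ∧ e ξ = l}

lemma hatlambda_eq (n : ℕ) (ξ : ℝ) : hatlambda n ξ = Pool.Agent.D6.hlam n ξ := rfl
lemma hatw_eq (n : ℕ) (ξ : ℝ) : hatw n ξ = Pool.Agent.D6.hwn n ξ := rfl
lemma hatwstar_eq (n : ℕ) (ξ : ℝ) : hatwstar n ξ = Pool.Agent.WnF.hws n ξ := rfl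

/-- **Intervals in the spectra of the uniform exponents in degree two.** For every real `w` with
`2 < w ≤ 13/6` there is a real transcendental number `ξ` with `ŵ_2(ξ) = ŵ_2^*(ξ) = w` and
`λ̂_2(ξ) = 1 - 1/w`.  In particular the spectra of `ŵ_2` and of `ŵ_2^*` contain the interval `(2, 13/6]` and the
spectrum of `λ̂_2` contains the interval `(1/2, 7/13]`. -/
theorem result :
    (∀ w : ℝ, 2 < w → w ≤ 13 / 6 → ∃ ξ : ℝ, Transcendental ℚ ξ ∧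
      hatw 2 ξ = (w : EReal) ∧ hatwstar 2 ξ = (w : EReal) ∧
      hatlambda 2 ξ = ((1 - 1 / w : ℝ) : EReal)) ∧
    (∀ w : ℝ, 2 < w → w ≤ 13 / 6 →
      (w : EReal) ∈ spectrum (hatw 2) ∧ (w : EReal) ∈ spectrum (hatwstar 2)) ∧
    (∀ l : ℝ, 1 / 2 < l → l ≤ 7 / 13 → (l : EReal) ∈ spectrum (hatlambda 2)) := by
  have key : ∀ w : ℝ, 2 < w → w ≤ 13 / 6 → ∃ ξ : ℝ, Transcendental ℚ ξ ∧
      hatw 2 ξ = (w : EReal) ∧ hatwstar 2 ξ = (w : EReal) ∧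
      hatlambda 2 ξ = ((1 - 1 / w : ℝ) : EReal) := by
    intro w h1 h2
    have hw : 0 < w - 2 := by linarith
    set Λ : ℝ := (w - 1) / (w - 2) with hΛ
    have h7 : 7 ≤ Λ := by
      rw [hΛ, le_div_iff₀ hw]
      linarith
    have e1 : (2 * Λ - 1) / (Λ - 1) = w := by
      have : Λ - 1 = 1 / (w - 2) := by rw [hΛ]; field_simp; ring
      have h3 : 2 * Λ - 1 = w / (w - 2) := by rw [hΛ]; field_simp; ring
      rw [this, h3]
      field_simp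
    have e2 : Λ / (2 * Λ - 1) = 1 - 1 / w := by
      have h3 : 2 * Λ - 1 = w / (w - 2) := by rw [hΛ]; field_simp; ring
      have hw0 : w ≠ 0 := by linarith
      rw [h3, hΛ]
      field_simp
    obtain ⟨ξ, t, a, b, c⟩ := Pool.Agent.D7.main Λ h7
    refine ⟨ξ, t, ?_, ?_, ?_⟩
    · rw [hatw_eq, b, e1]
    · rw [hatwstar_eq, c, e1]
    · rw [hatlambda_eq, a, e2]
  refine ⟨key, ?_, ?_⟩
  · intro w h1 h2
    obtain ⟨ξ, t, a, b, _⟩ := key w h1 h2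
    exact ⟨⟨ξ, t, a⟩, ⟨ξ, t, b⟩⟩
  · intro l h1 h2
    have h0 : 0 < 1 - l := by linarith
    obtain ⟨ξ, t, _, _, c⟩ := key (1 / (1 - l)) (by rw [lt_div_iff₀ h0]; linarith)
      (by rw [div_le_iff₀ h0]; linarith)
    refine ⟨ξ, t, ?_⟩
    rw [c, one_div_one_div]
    congr 1
    ring

end Pool.Agent.Results.MP_d6cb56_nt.UniformIntervals
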