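import Pool.Agent.Lib.WnF.DConcl
import Pool.Agent.Lib.WnF.DLiou

/-!
# MP_d6cb56_nt: the spectrum of `ŵ_n^*` contains `[1, n]` for every `n ≥ 1`
-/

set_option autoImplicit false

namespace Pool.Agent.Results.MP_d6cb56_nt.UniformStar

/-- The height of an integer polynomial: the maximum of the absolute values of its coefficients. -/
noncomputable def height (P : Polynomial ℤ) : ℝ := ⨆ i : ℕ, |(P.coeff i : ℝ)|

/-- There is a real algebraic number `α` of degree `≤ n` with `H(α) ≤ X` and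
`0 < |ξ - α| ≤ H(α)^{-1} X^{-v}`.  Here `P` is the minimal polynomial of `α` over `ℤ`. -/
def Approximable (n : ℕ) (ξ v X : ℝ) : Prop :=
  ∃ P : Polynomial ℤ, Irreducible P ∧ P.natDegree ≤ n ∧ height P ≤ X ∧
    ∃ α : ℝ, Polynomial.aeval α P = 0 ∧ 0 < |ξ - α| ∧ |ξ - α| ≤ (height P)⁻¹ * X ^ (-v)

/-- The exponent `ŵ_n^*(ξ)`: the supremum in `[-∞, +∞]` of the reals `r` such that for every
sufficiently large real `X` there is a real algebraic number `α` of degree `≤ n` with `H(α) ≤ X` and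
`0 < |ξ - α| ≤ H(α)^{-1} X^{-r}`. -/
noncomputable def hatwstar (n : ℕ) (ξ : ℝ) : EReal :=
  sSup {l : EReal | ∃ r : ℝ, l = r ∧ ∃ X₀ : ℝ, ∀ X : ℝ, X₀ ≤ X → Approximable n ξ r X}

/-- The spectrum of `ŵ_n^*`: the set of its values at the real transcendental numbers. -/
def spectrum (n : ℕ) : Set EReal := {l | ∃ ξ : ℝ, Transcendental ℚ ξ ∧ hatwstar n ξ = l}

lemma hatwstar_eq (n : ℕ) (ξ : ℝ) : hatwstar n ξ = Pool.Agent.WnF.hws n ξ := rfl

/-- **A part of the spectrum of `ŵ_n^*`.** For every `n ≥ 1` the spectrum of `ŵ_n^*` contains the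
interval `[1, n]`. -/
theorem result : ∀ n : ℕ, 1 ≤ n → ∀ r : ℝ, 1 ≤ r → r ≤ n → (r : EReal) ∈ spectrum n := by
  intro n hn r h1 hrn
  have hnR : (1:ℝ) ≤ n := by exact_mod_cast hn
  rcases eq_or_lt_of_le h1 with rfl | h1'
  · obtain ⟨ξ, hξ, h⟩ := Pool.Agent.WnF.hws_one n hn
    exact ⟨ξ, hξ, by rw [hatwstar_eq, h]⟩
  · have hr1 : 0 < r - 1 := by linarith
    set w : ℝ := r * (n - 1) / (r - 1) with hw
    have hwn : (n:ℝ) ≤ w := by
      rw [hw, le_div_iff₀ hr1]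
      nlinarith
    have hval : w / (w + 1 - n) = r := by
      have h2 : 0 < w + 1 - n := by linarith
      rw [div_eq_iff h2.ne', hw]
      field_simp
      ring
    obtain ⟨ξ, hξ, hξ1, hconv, happ⟩ := Pool.Agent.WnF.exists_xi2 n hn w hwn
    refine ⟨ξ, hξ, ?_⟩
    rw [hatwstar_eq]
    apply le_antisymm
    · rw [← hval]
      exact Pool.Agent.WnF.hws_le n hn w hwn ξ (1 / 3) _ hξ1 (by norm_num) hconv
    · by_contra hcon
      rw [not_le] at hcon
      obtain ⟨v, hv1, hv2⟩ := EReal.lt_iff_exists_real_btwn.1 hcon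
      rw [EReal.coe_lt_coe_iff] at hv2
      have hmem : (v : EReal) ∈ {l : EReal | ∃ r : ℝ, l = r ∧ ∃ X₀ : ℝ, ∀ X : ℝ, X₀ ≤ X →
          Pool.Agent.WnF.Appr n ξ r X} := ⟨v, rfl, happ v (by rw [hval]; exact hv2)⟩
      exact absurd (le_sSup hmem) (not_le.2 hv1)

end Pool.Agent.Results.MP_d6cb56_nt.UniformStar
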